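import Pool.Agent.H519Z.Vino.Defs
import Pool.Agent.H519Z.Vino.Main

open MeasureTheory Pool.Agent.H519Z.Vino

namespace Pool.Agent.Results.MP_35679e_nt.ExtendedMainFalse

/-- The extended main conjecture fails: for some `k ≥ 1`, `s ≥ k(k+1)/4 + 1` and `ε > 0`, and
every constant `C`, some `X ≥ 1` and some measurable `B ⊆ [0,1)^k` violate the bound. -/
theorem result :
    ∃ k : ℕ, 1 ≤ k ∧ ∃ s : ℝ, (k : ℝ) * ((k : ℝ) + 1) / 4 + 1 ≤ s ∧ ∃ ε : ℝ, 0 < ε ∧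
    ∀ C : ℝ, ∃ X : ℝ, 1 ≤ X ∧ ∃ B : Set (Fin k → ℝ), MeasurableSet B ∧
      B ⊆ Set.pi Set.univ (fun _ => Set.Ico (0 : ℝ) 1) ∧
      C * X ^ ε * (X ^ s * (volume B).toReal + X ^ (2 * s - (k : ℝ) * ((k : ℝ) + 1) / 2))
        < meanValue s k X B :=
  main

end Pool.Agent.Results.MP_35679e_nt.ExtendedMainFalse
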